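import Mathlib

/-!
# The Beck–Fiala theorem

If every point of a finite set `X` lies in at most `D` of the sets `𝒜 i` (`i ∈ I`), then there is a
`±1`-colouring of the points such that every `X ∩ 𝒜 i` has discrepancy at most `2 * D`.
-/

namespace Pool.Agent.Helper78.HD

open Classical in
/-- Rounding step of the Beck–Fiala theorem. -/
theorem beck_fiala_aux {α ι : Type} (X : Finset α) (I : Finset ι) (𝒜 : ι → Finset α) (D : ℕ)
    (h : ∀ x ∈ X, (I.filter (fun i => x ∈ 𝒜 i)).card ≤ D) :
    ∀ (m : ℕ) (x : α → ℝ), (∀ u ∈ X, |x u| ≤ 1) → (X.filter (fun u => |x u| < 1)).card = m →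
      ∃ χ : α → ℝ, (∀ u ∈ X, χ u = 1 ∨ χ u = -1) ∧ (∀ u ∈ X, |x u| = 1 → χ u = x u) ∧
        ∀ i ∈ I, |∑ u ∈ X.filter (fun u => u ∈ 𝒜 i), (χ u - x u)| ≤ 2 * D := by
  intro m
  induction m using Nat.strong_induction_on with
  | _ m ih =>
    intro x hx hm
    set F : Finset α := X.filter (fun u => |x u| < 1) with hF
    have hFX : F ⊆ X := Finset.filter_subset _ _
    have hnotF : ∀ u ∈ X, u ∉ F → |x u| = 1 := by
      intro u hu hu'
      by_contra hne
      exact hu' (by
        rw [hF, Finset.mem_filter]
        exact ⟨hu, lt_of_le_of_ne (hx u hu) hne⟩)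
    by_cases hF0 : F = ∅
    · refine ⟨x, ?_, fun _ _ _ => rfl, ?_⟩
      · intro u hu
        have h1 : |x u| = 1 := hnotF u hu (by rw [hF0]; simp)
        exact (abs_eq zero_le_one).1 h1
      · intro i _
        simp
    · have hFpos : 0 < F.card := Finset.card_pos.2 (Finset.nonempty_iff_ne_empty.2 hF0)
      -- active sets
      set Act : Finset ι := I.filter (fun i => D < (F.filter (fun u => u ∈ 𝒜 i)).card) with hAct
      have hcount : Act.card < F.card := by
        have h1 : Act.card * (D + 1) ≤ ∑ i ∈ Act, (F.filter (fun u => u ∈ 𝒜 i)).card := by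
          rw [← smul_eq_mul]
          apply Finset.card_nsmul_le_sum
          intro i hi
          exact (Finset.mem_filter.1 hi).2
        have h2 : ∑ i ∈ Act, (F.filter (fun u => u ∈ 𝒜 i)).card
            = ∑ u ∈ F, (Act.filter (fun i => u ∈ 𝒜 i)).card :=
          Finset.sum_card_bipartiteAbove_eq_sum_card_bipartiteBelow (fun i u => u ∈ 𝒜 i)
        have h3 : ∑ u ∈ F, (Act.filter (fun i => u ∈ 𝒜 i)).card ≤ F.card * D := by
          rw [← smul_eq_mul]
          apply Finset.sum_le_card_nsmul
          intro u hu
          refine le_trans (Finset.card_le_card ?_) (h u (hFX hu))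
          exact Finset.filter_subset_filter _ (Finset.filter_subset _ _)
        have h4 : Act.card * (D + 1) ≤ F.card * D := by
          rw [h2] at h1; exact h1.trans h3
        by_contra hge
        push Not at hge
        have h5 : F.card * (D + 1) ≤ Act.card * (D + 1) := Nat.mul_le_mul_right _ hge
        nlinarith
      -- a non-zero vector in the kernel
      obtain ⟨v, hv0, hv⟩ : ∃ v : F → ℝ, v ≠ 0 ∧
          ∀ i ∈ Act, ∑ u : F, (if (u : α) ∈ 𝒜 i then v u else 0) = 0 := by
        let L : (F → ℝ) →ₗ[ℝ] (Act → ℝ) :=
          { toFun := fun w i => ∑ u : F, (if (u : α) ∈ 𝒜 i then w u else 0)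
            map_add' := by
              intro a b; funext i
              simp only [Pi.add_apply]
              rw [← Finset.sum_add_distrib]
              refine Finset.sum_congr rfl (fun u _ => ?_)
              split_ifs <;> simp
            map_smul' := by
              intro c a; funext i
              simp only [Pi.smul_apply, smul_eq_mul, RingHom.id_apply]
              rw [Finset.mul_sum]
              refine Finset.sum_congr rfl (fun u _ => ?_)
              split_ifs <;> simp }
        have hker : LinearMap.ker L ≠ ⊥ := by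
          apply LinearMap.ker_ne_bot_of_finrank_lt
          simpa using hcount
        obtain ⟨w, hw, hw0⟩ := (Submodule.ne_bot_iff _).1 hker
        refine ⟨w, hw0, ?_⟩
        intro i hi
        have := congrFun (LinearMap.mem_ker.1 hw) ⟨i, hi⟩
        simpa [L] using this
      -- extend by zero
      let V : α → ℝ := fun u => if hu : u ∈ F then v ⟨u, hu⟩ else 0
      have hVF : ∀ (u : α) (hu : u ∈ F), V u = v ⟨u, hu⟩ := fun u hu => by simp [V, hu]
      have hVsum : ∀ i ∈ Act, ∑ u ∈ F.filter (fun u => u ∈ 𝒜 i), V u = 0 := by
        intro i hi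
        rw [Finset.sum_filter, ← Finset.sum_coe_sort]
        refine Eq.trans ?_ (hv i hi)
        refine Finset.sum_congr rfl (fun u _ => ?_)
        split_ifs with h1
        · exact hVF u u.2
        · rfl
      set S : Finset α := F.filter (fun u => V u ≠ 0) with hS
      have hSne : S.Nonempty := by
        obtain ⟨u, hu⟩ := Function.ne_iff.1 hv0
        refine ⟨u, ?_⟩
        rw [hS, Finset.mem_filter]
        refine ⟨u.2, ?_⟩
        rw [hVF u u.2]
        exact hu
      obtain ⟨u0, hu0, hmin⟩ := Finset.exists_min_image S
        (fun u => if 0 < V u then (1 - x u) / V u else (-1 - x u) / V u) hSne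
      have hu0F : u0 ∈ F := (Finset.mem_filter.1 hu0).1
      have hu0V : V u0 ≠ 0 := (Finset.mem_filter.1 hu0).2
      set τ : ℝ := (if 0 < V u0 then (1 - x u0) / V u0 else (-1 - x u0) / V u0) with hτ
      have hxF : ∀ u ∈ F, -1 < x u ∧ x u < 1 := by
        intro u hu
        have := (Finset.mem_filter.1 hu).2
        exact abs_lt.1 this
      have hτ0 : 0 ≤ τ := by
        rw [hτ]
        have := hxF u0 hu0F
        split_ifs with h1
        · exact div_nonneg (by linarith) h1.le
        · exact div_nonneg_of_nonpos (by linarith) (not_lt.1 h1)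
      let x' : α → ℝ := fun u => x u + τ * V u
      have hx'F : ∀ u ∈ F, |x' u| ≤ 1 := by
        intro u hu
        have hb := hxF u hu
        by_cases hV0 : V u = 0
        · simp only [x', hV0, mul_zero, add_zero]
          exact (abs_lt.2 hb).le
        · have hle := hmin u (Finset.mem_filter.2 ⟨hu, hV0⟩)
          change τ ≤ _ at hle
          rw [abs_le]
          by_cases hpos : 0 < V u
          · simp only [hpos, if_true] at hle
            rw [le_div_iff₀ hpos] at hle
            have : 0 ≤ τ * V u := mul_nonneg hτ0 hpos.le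
            constructor
            · change -1 ≤ x u + τ * V u; linarith
            · change x u + τ * V u ≤ 1; linarith
          · have hneg : V u < 0 := lt_of_le_of_ne (not_lt.1 hpos) hV0
            simp only [hpos, if_false] at hle
            rw [le_div_iff_of_neg hneg] at hle
            have : τ * V u ≤ 0 := mul_nonpos_of_nonneg_of_nonpos hτ0 hneg.le
            constructor
            · change -1 ≤ x u + τ * V u; linarith
            · change x u + τ * V u ≤ 1; linarith
      have hx'out : ∀ u, u ∉ F → x' u = x u := by
        intro u hu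
        simp [x', V, hu]
      have hx'0 : |x' u0| = 1 := by
        have e : x' u0 = if 0 < V u0 then 1 else -1 := by
          simp only [x', hτ]
          split_ifs with h1
          · field_simp; ring
          · field_simp; ring
        rw [e]
        split_ifs <;> simp
      have hx' : ∀ u ∈ X, |x' u| ≤ 1 := by
        intro u hu
        by_cases huF : u ∈ F
        · exact hx'F u huF
        · rw [hx'out u huF]; exact hx u hu
      have hlt : (X.filter (fun u => |x' u| < 1)).card < m := by
        rw [← hm]
        apply Finset.card_lt_card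
        rw [Finset.ssubset_iff_of_subset]
        · refine ⟨u0, hu0F, ?_⟩
          rw [Finset.mem_filter, hx'0]
          simp
        · intro u hu
          rw [Finset.mem_filter] at hu
          by_contra huF
          rw [hx'out u huF, hnotF u hu.1 huF] at hu
          exact lt_irrefl _ hu.2
      obtain ⟨χ, hχ1, hχ2, hχ3⟩ := ih _ hlt x' hx' rfl
      have hkeep : ∀ u ∈ X, |x u| = 1 → χ u = x u := by
        intro u hu hu1
        have huF : u ∉ F := by
          intro hF'
          have := (Finset.mem_filter.1 hF').2
          rw [hu1] at this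
          exact lt_irrefl _ this
        have := hχ2 u hu (by rw [hx'out u huF]; exact hu1)
        rw [this, hx'out u huF]
      refine ⟨χ, hχ1, hkeep, ?_⟩
      intro i hi
      by_cases hact : i ∈ Act
      · have hz : ∑ u ∈ X.filter (fun u => u ∈ 𝒜 i), (x' u - x u) = 0 := by
          have hsub : F.filter (fun u => u ∈ 𝒜 i) ⊆ X.filter (fun u => u ∈ 𝒜 i) :=
            Finset.filter_subset_filter _ hFX
          rw [← Finset.sum_subset hsub]
          · have : ∀ u ∈ F.filter (fun u => u ∈ 𝒜 i), x' u - x u = τ * V u := by
              intro u _; simp [x']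
            rw [Finset.sum_congr rfl this, ← Finset.mul_sum, hVsum i hact, mul_zero]
          · intro u hu hu'
            have huF : u ∉ F := by
              intro hF'
              exact hu' (Finset.mem_filter.2 ⟨hF', (Finset.mem_filter.1 hu).2⟩)
            rw [hx'out u huF, sub_self]
        have hsplit : ∑ u ∈ X.filter (fun u => u ∈ 𝒜 i), (χ u - x u)
            = ∑ u ∈ X.filter (fun u => u ∈ 𝒜 i), (χ u - x' u) := by
          have : ∀ u ∈ X.filter (fun u => u ∈ 𝒜 i), χ u - x u = (χ u - x' u) + (x' u - x u) := by
            intro u _; ring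
          rw [Finset.sum_congr rfl this, Finset.sum_add_distrib, hz, add_zero]
        rw [hsplit]
        exact hχ3 i hi
      · have hle : (F.filter (fun u => u ∈ 𝒜 i)).card ≤ D := by
          by_contra hgt
          exact hact (Finset.mem_filter.2 ⟨hi, not_le.1 hgt⟩)
        have hsub : F.filter (fun u => u ∈ 𝒜 i) ⊆ X.filter (fun u => u ∈ 𝒜 i) :=
          Finset.filter_subset_filter _ hFX
        rw [← Finset.sum_subset hsub]
        · calc |∑ u ∈ F.filter (fun u => u ∈ 𝒜 i), (χ u - x u)|
              ≤ ∑ u ∈ F.filter (fun u => u ∈ 𝒜 i), |χ u - x u| := Finset.abs_sum_le_sum_abs _ _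
            _ ≤ ∑ u ∈ F.filter (fun u => u ∈ 𝒜 i), (2 : ℝ) := by
                refine Finset.sum_le_sum (fun u hu => ?_)
                have huF : u ∈ F := (Finset.mem_filter.1 hu).1
                have hb := hxF u huF
                rcases hχ1 u (hFX huF) with h1 | h1 <;> rw [h1, abs_le] <;>
                  constructor <;> linarith
            _ = (F.filter (fun u => u ∈ 𝒜 i)).card * 2 := by
                rw [Finset.sum_const, nsmul_eq_mul]
            _ ≤ 2 * D := by
                have : ((F.filter (fun u => u ∈ 𝒜 i)).card : ℝ) ≤ D := by exact_mod_cast hle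
                linarith
        · intro u hu hu'
          have huX : u ∈ X := (Finset.mem_filter.1 hu).1
          have huF : u ∉ F := by
            intro hF'
            exact hu' (Finset.mem_filter.2 ⟨hF', (Finset.mem_filter.1 hu).2⟩)
          rw [hkeep u huX (hnotF u huX huF), sub_self]

open Classical in
/-- **Beck–Fiala theorem** (with the bound `2 * D`). -/
theorem beck_fiala {α ι : Type} (X : Finset α) (I : Finset ι) (𝒜 : ι → Finset α) (D : ℕ)
    (h : ∀ x ∈ X, (I.filter (fun i => x ∈ 𝒜 i)).card ≤ D) :
    ∃ χ : α → ℤ, (∀ x, χ x = 1 ∨ χ x = -1) ∧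
      ∀ i ∈ I, |∑ x ∈ X.filter (fun x => x ∈ 𝒜 i), χ x| ≤ 2 * D := by
  obtain ⟨χ, h1, -, h3⟩ := beck_fiala_aux X I 𝒜 D h _ (fun _ => 0) (by simp) rfl
  refine ⟨fun u => if χ u = 1 then 1 else -1, ?_, ?_⟩
  · intro u
    dsimp only
    split_ifs <;> simp
  · intro i hi
    have h4 := h3 i hi
    have e : ((∑ x ∈ X.filter (fun x => x ∈ 𝒜 i), (if χ x = 1 then (1 : ℤ) else -1) : ℤ) : ℝ)
        = ∑ x ∈ X.filter (fun x => x ∈ 𝒜 i), (χ x - 0) := by
      rw [Int.cast_sum]
      refine Finset.sum_congr rfl (fun u hu => ?_)
      have huX : u ∈ X := (Finset.mem_filter.1 hu).1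
      rcases h1 u huX with h5 | h5
      · simp [h5]
      · rw [h5]; norm_num
    have h6 : |((∑ x ∈ X.filter (fun x => x ∈ 𝒜 i), (if χ x = 1 then (1 : ℤ) else -1) : ℤ) : ℝ)|
        ≤ 2 * D := by
      rw [e]; exact h4
    exact_mod_cast h6

end Pool.Agent.Helper78.HD
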